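import Pool.Agent.U10.Dg.Var
import Pool.Agent.Y787.GL.Curve6

/-!
# Varieties which contain a point with logarithmic coordinates have a large degree
-/

set_option autoImplicit false

namespace Pool.Agent.U10.Dg

open MvPolynomial Module

section spec

variable {κ : Type*} [Field κ] {F F' : Type*} [Field F] [Algebra κ F] [Field F'] [Algebra κ F']

/-- the space of the values of the polynomials of degree at most `m` -/
theorem map_pow_span {n : ℕ} (x : Fin n → F) (m : ℕ) :
    ((Submodule.span κ ({1} ∪ Set.range (X : Fin n → MvPolynomial (Fin n) κ))) ^ m).map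
      (aeval x : MvPolynomial (Fin n) κ →ₐ[κ] F).toLinearMap =
      (Submodule.span κ ({1} ∪ Set.range x)) ^ m := by
  rw [Submodule.map_pow, Submodule.map_span]
  congr 2
  rw [Set.image_union, Set.image_singleton, ← Set.range_comp]
  congr 1
  · rw [AlgHom.toLinearMap_apply, map_one]
  · congr 1
    funext i
    simp

/-- the growth can only decrease under specialization -/
theorem finrank_spec {n : ℕ} (x : Fin n → F) (l : Fin n → F')
    (h : ∀ P : MvPolynomial (Fin n) κ, aeval x P = 0 → aeval l P = 0) (m : ℕ) :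
    finrank κ ((Submodule.span κ ({1} ∪ Set.range l)) ^ m : Submodule κ F') ≤
      finrank κ ((Submodule.span κ ({1} ∪ Set.range x)) ^ m : Submodule κ F) := by
  rw [← map_pow_span x, ← map_pow_span l]
  set W : Submodule κ (MvPolynomial (Fin n) κ) :=
    (Submodule.span κ ({1} ∪ Set.range (X : Fin n → MvPolynomial (Fin n) κ))) ^ m with hW
  have hWfd : FiniteDimensional κ W :=
    Module.Finite.iff_fg.mpr (Submodule.FG.pow (Submodule.fg_span
      ((Set.finite_singleton _).union (Set.finite_range _))) m)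
  let f1 := (aeval x : MvPolynomial (Fin n) κ →ₐ[κ] F).toLinearMap.domRestrict W
  let f2 := (aeval l : MvPolynomial (Fin n) κ →ₐ[κ] F').toLinearMap.domRestrict W
  have e1 : LinearMap.range f1 = W.map (aeval x : MvPolynomial (Fin n) κ →ₐ[κ] F).toLinearMap :=
    LinearMap.range_domRestrict _ _
  have e2 : LinearMap.range f2 = W.map (aeval l : MvPolynomial (Fin n) κ →ₐ[κ] F').toLinearMap :=
    LinearMap.range_domRestrict _ _
  have hk : LinearMap.ker f1 ≤ LinearMap.ker f2 := by
    intro P hP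
    exact h P hP
  have h1 := LinearMap.finrank_range_add_finrank_ker f1
  have h2 := LinearMap.finrank_range_add_finrank_ker f2
  have h3 := Submodule.finrank_mono hk
  rw [← e1, ← e2]
  omega

end spec

open Pool.Agent.Y787 (QC HypC)

/-- the growth of the powers of a space of linear forms in logarithms -/
theorem growth_low {Cc : Type} [Field Cc] [CharZero Cc] [IsAlgClosed Cc]
    {Lt : Submodule (QC Cc) Cc} [HypC Lt] {n : ℕ} (l : Fin n → Cc) (hl : ∀ i, l i ∈ Lt) (v : ℕ)
    (hv : v ≤ finrank (QC Cc) (Submodule.span (QC Cc) ({1} ∪ Set.range l) :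
      Submodule (QC Cc) Cc)) (m : ℕ) :
    v + m * (v ^ 2 / 4) ≤ finrank (QC Cc)
      ((Submodule.span (QC Cc) ({1} ∪ Set.range l)) ^ (m + 1) : Submodule (QC Cc) Cc) := by
  set V : Submodule (QC Cc) Cc := Submodule.span (QC Cc) ({1} ∪ Set.range l) with hV
  have hVfd : FiniteDimensional (QC Cc) V := FiniteDimensional.span_of_finite (QC Cc)
    ((Set.finite_singleton _).union (Set.finite_range l))
  have hVL : V ≤ Lt := by
    rw [hV, Submodule.span_le]
    rintro z (hz | ⟨i, rfl⟩)
    · rw [Set.mem_singleton_iff] at hz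
      subst hz
      exact HypC.one
    · exact hl i
  have h1V : (1 : Cc) ∈ V := Submodule.subset_span (Or.inl rfl)
  have hsq : v ^ 2 / 4 ≤ finrank (QC Cc) V ^ 2 / 4 :=
    Nat.div_le_div_right (Nat.pow_le_pow_left hv 2)
  induction m with
  | zero =>
    rw [zero_mul, add_zero, zero_add, pow_one]
    exact hv
  | succ m ih =>
    have h2 := Pool.Agent.Y787.GL.pow_growth (Lt := Lt) V hVL h1V (m + 1) (Nat.succ_pos m)
    calc v + (m + 1) * (v ^ 2 / 4)
        = v + m * (v ^ 2 / 4) + v ^ 2 / 4 := by ring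
      _ ≤ _ := Nat.add_le_add ih hsq
      _ ≤ _ := h2

/-- **Main bound.** -/
theorem degree_bound {Cc : Type} [Field Cc] [CharZero Cc] [IsAlgClosed Cc]
    {Lt : Submodule (QC Cc) Cc} [HypC Lt] {F : Type*} [Field F] [Algebra (QC Cc) F] {n k δ : ℕ}
    (x : Fin n → F) (hx : IntermediateField.adjoin (QC Cc) (Set.range x) = ⊤)
    (hk : Algebra.trdeg (QC Cc) F = k)
    (hdeg : ∀ y : Fin k → F, (∀ i, y i ∈ Submodule.span (QC Cc) (Set.range x)) →
      AlgebraicIndependent (QC Cc) y →
      finrank (IntermediateField.adjoin (QC Cc) (Set.range y)) F ≤ δ)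
    (l : Fin n → Cc) (hl : ∀ i, l i ∈ Lt)
    (hsp : ∀ P : MvPolynomial (Fin n) (QC Cc), aeval x P = 0 → aeval l P = 0) (v : ℕ)
    (hv : v ≤ finrank (QC Cc) (Submodule.span (QC Cc) ({1} ∪ Set.range l) :
      Submodule (QC Cc) Cc)) (m : ℕ) :
    v + m * (v ^ 2 / 4) ≤ δ * (m + k).choose k + (m + k).choose (m + 1) := by
  have hac : IsAlgClosed (QC Cc) := (algebraicClosure.isAlgClosure ℚ Cc).isAlgClosed
  have : CharZero F := charZero_of_injective_algebraMap (algebraMap (QC Cc) F).injective
  obtain ⟨k', y, hy, hyspan, hk', -, hb⟩ := exists_projection (κ := QC Cc) x hx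
  obtain rfl : k' = k := by
    rw [hk] at hk'
    exact_mod_cast hk'.symm
  have h1 := (finrank_spec x l hsp (m + 1)).trans ((hb m).trans
    (Nat.add_le_add_right (Nat.mul_le_mul_right _ (hdeg y hyspan hy)) _))
  exact (growth_low (Lt := Lt) l hl v hv m).trans h1

theorem square_bound' {r N : ℕ} (h : r + 1 + 1 * ((r + 1) ^ 2 / 4) ≤ N) :
    (r + 3) ^ 2 ≤ 4 * N + 5 := by
  have h3 : (r + 1) ^ 2 ≤ 4 * ((r + 1) ^ 2 / 4) + 1 := by
    rcases Nat.even_or_odd' (r + 1) with ⟨a, ha | ha⟩
    · rw [ha]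
      have : (2 * a) ^ 2 = 4 * (a * a) := by ring
      omega
    · rw [ha]
      have : (2 * a + 1) ^ 2 = 4 * (a * a + a) + 1 := by ring
      omega
  have h4 : (r + 3) ^ 2 = (r + 1) ^ 2 + 4 * (r + 1) + 4 := by ring
  rw [h4]
  omega

/-- the case `m = 1` -/
theorem square_bound {r k δ : ℕ}
    (h : r + 1 + 1 * ((r + 1) ^ 2 / 4) ≤ δ * (1 + k).choose k + (1 + k).choose (1 + 1)) :
    (r + 3) ^ 2 ≤ 4 * (k + 1) * δ + 2 * k * (k + 1) + 5 := by
  have h1 : (1 + k).choose k = k + 1 := by
    rw [add_comm 1 k, Nat.choose_succ_self_right]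
  have h2 : (1 + k).choose (1 + 1) * 2 = k * (k + 1) := by
    rw [add_comm 1 k, Nat.choose_two_right, Nat.add_sub_cancel]
    rw [Nat.div_mul_cancel, mul_comm]
    rw [mul_comm]
    exact (Nat.even_mul_succ_self k).two_dvd
  have h3 := square_bound' h
  rw [h1] at h3
  have h5 : 4 * (k + 1) * δ = 4 * (δ * (k + 1)) := by ring
  have h6 : 2 * k * (k + 1) = 4 * (1 + k).choose (1 + 1) := by
    calc 2 * k * (k + 1) = 2 * (k * (k + 1)) := by ring
      _ = 2 * ((1 + k).choose (1 + 1) * 2) := by rw [h2]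
      _ = _ := by ring
  rw [h5, h6]
  omega

end Pool.Agent.U10.Dg
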