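import Pool.Agent.U10.Dg.Asm
import Pool.Agent.W254.HP.Opt

/-!
# Points with logarithmic coordinates: the complex case
-/

set_option autoImplicit false

namespace Pool.Agent.U10.Dg

open MvPolynomial Module
open Pool.Agent.Y787 (QC HypC)
open Pool.Agent.H301R2.SSE (Lt QB)

theorem hypC_complex : HypC (Cc := ℂ) Lt where
  one := Pool.Agent.H301R2.SSE.Lt_one
  hyp := fun d l x a hx ha hxa hcol => Pool.Agent.W254.HP.hyperplane d l x a hx ha hxa hcol

/-- rational functions of bounded degree with a common denominator -/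
theorem growth_up {κ F : Type*} [Field κ] [Field F] [Algebra κ F] {n s D : ℕ} (l : Fin n → F)
    (t : Fin s → F) (Q : MvPolynomial (Fin s) κ) (hQ : Q.totalDegree ≤ D) (hQt : aeval t Q ≠ 0)
    (P : Fin n → MvPolynomial (Fin s) κ) (hP : ∀ i, (P i).totalDegree ≤ D)
    (hl : ∀ i, l i * aeval t Q = aeval t (P i)) (m : ℕ) :
    finrank κ ((Submodule.span κ ({1} ∪ Set.range l)) ^ m : Submodule κ F) ≤
      (m * D + s).choose s := by
  classical
  set q : F := aeval t Q with hq
  -- the spaces `S_m`
  let S : ℕ → Submodule κ F := fun m => (restrictTotalDegree (Fin s) κ (m * D)).map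
    ((LinearMap.mulLeft κ (q ^ m)⁻¹).comp (aeval t : MvPolynomial (Fin s) κ →ₐ[κ] F).toLinearMap)
  have hS : ∀ m, (Submodule.span κ ({1} ∪ Set.range l)) ^ m ≤ S m := by
    intro m
    induction m with
    | zero =>
      rw [pow_zero, Submodule.one_le]
      refine ⟨1, ?_, ?_⟩
      · rw [SetLike.mem_coe, mem_restrictTotalDegree, totalDegree_one]; exact Nat.zero_le _
      · simp
    | succ m ih =>
      rw [pow_succ]
      refine (mul_le_mul' ih le_rfl).trans ?_
      rw [Submodule.mul_le]
      rintro _ ⟨A, hA, rfl⟩ y hy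
      rw [SetLike.mem_coe, mem_restrictTotalDegree] at hA
      have h1 : ∃ B : MvPolynomial (Fin s) κ, B.totalDegree ≤ D ∧ y * q = aeval t B := by
        induction hy using Submodule.span_induction with
        | mem y hy =>
          rcases hy with hy | ⟨i, rfl⟩
          · rw [Set.mem_singleton_iff] at hy
            subst hy
            exact ⟨Q, hQ, one_mul _⟩
          · exact ⟨P i, hP i, hl i⟩
        | zero => exact ⟨0, by rw [totalDegree_zero]; exact Nat.zero_le _, by rw [zero_mul, map_zero]⟩
        | add a b _ _ ha hb =>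
          obtain ⟨A1, h1, h2⟩ := ha
          obtain ⟨B1, h3, h4⟩ := hb
          exact ⟨A1 + B1, (totalDegree_add _ _).trans (max_le h1 h3), by
            rw [add_mul, h2, h4, map_add]⟩
        | smul c a _ ha =>
          obtain ⟨A1, h1, h2⟩ := ha
          exact ⟨c • A1, (totalDegree_smul_le _ _).trans h1, by
            rw [smul_mul_assoc, h2, map_smul]⟩
      obtain ⟨B, hB, hy2⟩ := h1
      refine ⟨A * B, ?_, ?_⟩
      · rw [SetLike.mem_coe, mem_restrictTotalDegree, Nat.succ_mul]
        exact (totalDegree_mul _ _).trans (Nat.add_le_add hA hB)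
      · simp only [LinearMap.comp_apply, LinearMap.mulLeft_apply, AlgHom.toLinearMap_apply, map_mul]
        rw [← hy2, pow_succ]
        field_simp
  have hfd : FiniteDimensional κ (restrictTotalDegree (Fin s) κ (m * D)) := inferInstance
  have h1 : finrank κ (restrictTotalDegree (Fin s) κ (m * D)) = (m * D + s).choose s := by
    have e : {α : Fin s →₀ ℕ | (α.sum fun _ e => e) ≤ m * D} =
        ((expo s (m * D) : Finset (Fin s →₀ ℕ)) : Set (Fin s →₀ ℕ)) := by
      ext α
      rw [Finset.mem_coe, mem_expo, Set.mem_ofPred_eq, Finsupp.sum_fintype _ _ (fun _ => rfl)]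
    have h1 : finrank κ (restrictTotalDegree (Fin s) κ (m * D))
        = Nat.card {α : Fin s →₀ ℕ | (α.sum fun _ e => e) ≤ m * D} :=
      Module.finrank_eq_nat_card_basis (basisRestrictSupport κ _)
    rw [h1, e, ← card_expo]
    simp
  rw [← h1]
  exact (Submodule.finrank_mono (hS m)).trans (Submodule.finrank_map_le _ _)

/-- the rank of logarithms and the dimension of the space of linear forms -/
theorem rank_succ_le {n : ℕ} (l : Fin n → ℂ) (hl : ∀ i, IsAlgebraic ℚ (Complex.exp (l i))) :
    finrank ℚ (Submodule.span ℚ (Set.range l)) + 1 ≤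
      finrank QB (Submodule.span QB ({1} ∪ Set.range l) : Submodule QB ℂ) := by
  classical
  have hQfd : FiniteDimensional ℚ (Submodule.span ℚ (Set.range l)) :=
    FiniteDimensional.span_of_finite ℚ (Set.finite_range l)
  obtain ⟨f, hf, -, hli⟩ := Submodule.exists_fun_fin_finrank_span_eq ℚ (Set.range l)
  have hfa : ∀ i, IsAlgebraic ℚ (Complex.exp (f i)) := fun i => by
    obtain ⟨j, hj⟩ := hf i
    rw [← hj]
    exact hl j
  have h1 := Pool.Agent.W254.HP.opt_indep f hfa hli
  have h2 := finrank_span_eq_card h1
  rw [Fintype.card_option, Fintype.card_fin] at h2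
  rw [← h2]
  have hfd : FiniteDimensional QB (Submodule.span QB ({1} ∪ Set.range l) : Submodule QB ℂ) :=
    FiniteDimensional.span_of_finite QB
      ((Set.finite_singleton _).union (Set.finite_range l))
  refine Submodule.finrank_mono ?_
  rw [Submodule.span_le]
  rintro _ ⟨o, rfl⟩
  rcases o with _ | i
  · exact Submodule.subset_span (Or.inl rfl)
  · exact Submodule.subset_span (Or.inr (hf i))

end Pool.Agent.U10.Dg
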