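import Mathlib

/-!
# Common eigenvectors of commuting matrices
-/

set_option autoImplicit false

namespace Pool.Agent.U10.Dg

open Matrix Module

/-- Commuting matrices over an algebraically closed field have a common (left) eigenvector. -/
theorem common_eigen {κ : Type*} [Field κ] [IsAlgClosed κ] {δ : ℕ} (hδ : 0 < δ) {ι : Type*}
    (A : ι → Matrix (Fin δ) (Fin δ) κ) (hA : ∀ i j, A i * A j = A j * A i) (s : Finset ι) :
    ∃ (w : Fin δ → κ) (χ : ι → κ), w ≠ 0 ∧ ∀ j ∈ s, w ᵥ* A j = χ j • w := by
  classical
  induction s using Finset.induction_on with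
  | empty =>
    have : Nonempty (Fin δ) := ⟨⟨0, hδ⟩⟩
    exact ⟨1, 0, one_ne_zero, fun j hj => absurd hj (Finset.notMem_empty j)⟩
  | insert a s ha ih =>
    obtain ⟨w, χ, hw, h⟩ := ih
    -- the common eigenspace
    let E : Submodule κ (Fin δ → κ) :=
      { carrier := {v | ∀ j ∈ s, v ᵥ* A j = χ j • v}
        add_mem' := by
          intro v v' hv hv' j hj
          rw [Matrix.add_vecMul, hv j hj, hv' j hj, smul_add]
        zero_mem' := by
          intro j _
          rw [Matrix.zero_vecMul, smul_zero]
        smul_mem' := by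
          intro c v hv j hj
          rw [Matrix.smul_vecMul, hv j hj, smul_comm] }
    have hinv : ∀ v ∈ E, v ᵥ* A a ∈ E := by
      intro v hv j hj
      rw [Matrix.vecMul_vecMul, hA a j, ← Matrix.vecMul_vecMul, hv j hj, Matrix.smul_vecMul]
    let f : E →ₗ[κ] E :=
      { toFun := fun v => ⟨v.1 ᵥ* A a, hinv v.1 v.2⟩
        map_add' := by
          intro v v'
          apply Subtype.ext
          exact Matrix.add_vecMul (A a) v.1 v'.1
        map_smul' := by
          intro c v
          apply Subtype.ext
          change (c • v.1) ᵥ* A a = c • (v.1 ᵥ* A a)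
          exact Matrix.smul_vecMul c v.1 (A a) }
    have hE : Nontrivial E := ⟨⟨⟨w, h⟩, 0, fun h0 => hw (congrArg Subtype.val h0)⟩⟩
    obtain ⟨μ, hμ⟩ := Module.End.exists_eigenvalue f
    obtain ⟨v, hv⟩ := hμ.exists_hasEigenvector
    refine ⟨v.1, Function.update χ a μ, fun h0 => hv.2 (Subtype.ext h0), fun j hj => ?_⟩
    rcases Finset.mem_insert.1 hj with rfl | hjs
    · rw [Function.update_self]
      exact congrArg Subtype.val hv.apply_eq_smul
    · have hja : j ≠ a := by
        rintro rfl
        exact ha hjs
      rw [Function.update_of_ne hja]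
      exact v.2 j hjs

end Pool.Agent.U10.Dg
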