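import Pool.Agent.U10.Dg.Rees

/-!
# Linear Noether normalization

Elements `x_1, …, x_n` of a field over an infinite field `κ` have growth one over some algebraically
independent `κ`-linear combinations of them.
-/

set_option autoImplicit false

namespace Pool.Agent.U10.Dg

open MvPolynomial

section lin

variable {R : Type*} [CommRing R] {ι : Type*}

theorem natDegree_prod_pow (L : ι → Polynomial R) (hL : ∀ i, (L i).natDegree ≤ 1) (s : Finset ι)
    (a : ι → ℕ) : (∏ i ∈ s, L i ^ a i).natDegree ≤ ∑ i ∈ s, a i := by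
  refine (Polynomial.natDegree_prod_le _ _).trans (Finset.sum_le_sum fun i _ => ?_)
  refine Polynomial.natDegree_pow_le.trans ?_
  calc a i * (L i).natDegree ≤ a i * 1 := Nat.mul_le_mul_left _ (hL i)
    _ = a i := mul_one _

theorem coeff_prod_pow (L : ι → Polynomial R) (hL : ∀ i, (L i).natDegree ≤ 1) (s : Finset ι)
    (a : ι → ℕ) : (∏ i ∈ s, L i ^ a i).coeff (∑ i ∈ s, a i) = ∏ i ∈ s, (L i).coeff 1 ^ a i := by
  classical
  induction s using Finset.induction_on with
  | empty => simp
  | insert b s hb ih =>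
    rw [Finset.prod_insert hb, Finset.sum_insert hb, Finset.prod_insert hb,
      Polynomial.coeff_mul_add_eq_of_natDegree_le, ih]
    · congr 1
      have := Polynomial.coeff_pow_of_natDegree_le (m := a b) (hL b)
      rwa [mul_one] at this
    · refine Polynomial.natDegree_pow_le.trans ?_
      calc a b * (L b).natDegree ≤ a b * 1 := Nat.mul_le_mul_left _ (hL b)
        _ = a b := mul_one _
    · exact natDegree_prod_pow L hL s a

end lin

variable {κ : Type*} [Field κ] {F : Type*} [Field F] [Algebra κ F]

/-- elimination of the first element -/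
theorem step [Infinite κ] {n : ℕ} (x : Fin (n + 1) → F)
    (h : ¬ AlgebraicIndependent κ x) :
    ∃ b : Fin n → κ, Bd κ (fun i => x i.succ - b i • x 0) (x 0) 1 := by
  classical
  obtain ⟨G, hG, hG0⟩ : ∃ G : MvPolynomial (Fin (n + 1)) κ, aeval x G = 0 ∧ G ≠ 0 := by
    by_contra hcon
    push Not at hcon
    exact h (algebraicIndependent_iff.2 fun p hp => hcon p hp)
  set d := G.totalDegree with hd
  have hsum : ∀ α ∈ G.support, ∑ i, α i ≤ d := by
    intro α hα
    have := le_totalDegree hα
    rwa [Finsupp.sum_fintype _ _ (fun _ => rfl)] at this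
  -- the part of degree `d`
  set S := G.support.filter (fun α => ∑ i, α i = d) with hS
  set Gd : MvPolynomial (Fin (n + 1)) κ := ∑ α ∈ S, monomial α (coeff α G) with hGd
  have hGd0 : Gd ≠ 0 := by
    intro h0
    obtain ⟨α, hα, hαd⟩ := Finset.exists_mem_eq_sup G.support
      (Finset.nonempty_iff_ne_empty.2 fun h1 => hG0 (MvPolynomial.support_eq_empty.1 h1))
      (fun α => α.sum fun _ e => e)
    have hαS : α ∈ S := by
      rw [hS, Finset.mem_filter]
      refine ⟨hα, ?_⟩
      rw [hd, totalDegree, hαd, Finsupp.sum_fintype _ _ (fun _ => rfl)]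
    have h1 : coeff α Gd = coeff α G := by
      rw [hGd, coeff_sum, Finset.sum_eq_single α]
      · rw [coeff_monomial, if_pos rfl]
      · intro γ _ hγ
        rw [coeff_monomial, if_neg hγ]
      · intro h2; exact absurd hαS h2
    rw [h0, coeff_zero] at h1
    exact (MvPolynomial.mem_support_iff.1 hα) h1.symm
  have heval : ∀ a : Fin (n + 1) → κ, eval a Gd = ∑ α ∈ S, coeff α G * ∏ i, a i ^ α i := by
    intro a
    rw [hGd, map_sum]
    refine Finset.sum_congr rfl fun α _ => ?_
    rw [eval_monomial, Finsupp.prod_fintype _ _ (fun i => pow_zero _)]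
  obtain ⟨a, ha⟩ : ∃ a : Fin (n + 1) → κ, eval a (Gd * X 0) ≠ 0 := by
    by_contra hcon
    push Not at hcon
    have h1 : Gd * X 0 = 0 := MvPolynomial.funext fun a => by rw [hcon a, map_zero]
    exact (mul_ne_zero hGd0 (X_ne_zero _)) h1
  rw [map_mul, eval_X, mul_ne_zero_iff] at ha
  obtain ⟨ha1, ha0⟩ := ha
  -- the direction
  let β : Fin (n + 1) → κ := fun i => a i / a 0
  have hβ0 : β 0 = 1 := div_self ha0
  refine ⟨fun i => β i.succ, ?_⟩
  set x' : Fin n → F := fun i => x i.succ - β i.succ • x 0 with hx'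
  let κR : κ →+* Rees n κ := algebraMap κ (ReesAlg n κ)
  have hκR : ∀ c : κ, κR c = hom (C c) 0 (by rw [totalDegree_C]) := by
    intro c
    apply Subtype.ext
    change algebraMap κ (Polynomial (MvPolynomial (Fin n) κ)) c = Polynomial.monomial 0 (C c)
    rw [Polynomial.monomial_zero_left, Polynomial.algebraMap_apply, algebraMap_eq]
  let T : Rees n κ := hom 1 1 (by rw [totalDegree_one]; exact Nat.zero_le _)
  let t : Fin (n + 1) → Rees n κ := Fin.cons 0 fun i => hom (X i) 1 (totalDegree_X i).le
  let L : Fin (n + 1) → Polynomial (Rees n κ) := fun i =>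
    Polynomial.C (t i) + Polynomial.C (κR (β i)) * Polynomial.X
  have hL : ∀ i, (L i).natDegree ≤ 1 := by
    intro i
    refine Polynomial.natDegree_add_le_of_degree_le ?_ ?_
    · rw [Polynomial.natDegree_C]; exact Nat.zero_le _
    · exact (Polynomial.natDegree_C_mul_le _ _).trans Polynomial.natDegree_X_le
  have hL1 : ∀ i, (L i).coeff 1 = κR (β i) := by
    intro i
    simp [L, Polynomial.coeff_C]
  let P : Polynomial (Rees n κ) := ∑ α ∈ G.support,
    Polynomial.C (κR (coeff α G) * T ^ (d - ∑ i, α i)) * ∏ i, L i ^ α i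
  have hPdeg : P.natDegree ≤ d := by
    refine Polynomial.natDegree_sum_le_of_forall_le _ _ fun α hα => ?_
    refine (Polynomial.natDegree_C_mul_le _ _).trans ?_
    exact (natDegree_prod_pow L hL Finset.univ α).trans (hsum α hα)
  -- the leading coefficient
  set e : κ := ∑ α ∈ S, coeff α G * ∏ i, β i ^ α i with he
  have he0 : e ≠ 0 := by
    intro h0
    apply ha1
    rw [heval a]
    have h1 : ∀ α ∈ S, coeff α G * ∏ i, a i ^ α i = a 0 ^ d * (coeff α G * ∏ i, β i ^ α i) := by
      intro α hα
      have h2 : ∑ i, α i = d := (Finset.mem_filter.1 hα).2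
      have h3 : ∏ i, a i ^ α i = a 0 ^ d * ∏ i, β i ^ α i := by
        rw [← h2, ← Finset.prod_pow_eq_pow_sum, ← Finset.prod_mul_distrib]
        refine Finset.prod_congr rfl fun i _ => ?_
        rw [← mul_pow]
        congr 1
        simp only [β]
        field_simp
      rw [h3]; ring
    rw [Finset.sum_congr rfl h1, ← Finset.mul_sum, ← he, h0, mul_zero]
  have hPc : P.coeff d = κR e := by
    rw [Polynomial.finsetSum_coeff, he, map_sum, hS, Finset.sum_filter]
    refine Finset.sum_congr rfl fun α hα => ?_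
    rw [Polynomial.coeff_C_mul]
    split_ifs with h1
    · have h2 := coeff_prod_pow L hL Finset.univ α
      rw [h1] at h2
      rw [h2, h1, Nat.sub_self, pow_zero, mul_one, map_mul, map_prod]
      congr 1
      refine Finset.prod_congr rfl fun i _ => ?_
      rw [hL1, map_pow]
    · rw [Polynomial.coeff_eq_zero_of_natDegree_lt, mul_zero]
      exact (natDegree_prod_pow L hL Finset.univ α).trans_lt
        (lt_of_le_of_ne (hsum α hα) h1)
  have hmonic : (Polynomial.C (κR e⁻¹) * P).Monic := by
    refine Polynomial.monic_of_natDegree_le_of_coeff_eq_one d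
      ((Polynomial.natDegree_C_mul_le _ _).trans hPdeg) ?_
    rw [Polynomial.coeff_C_mul, hPc, ← map_mul, inv_mul_cancel₀ he0, map_one]
  refine ⟨_, hmonic, ?_⟩
  have hphiκ : ∀ c : κ, phi x' (κR c) = Polynomial.C (algebraMap κ F c) := by
    intro c
    rw [hκR, phi_hom, aeval_C, pow_zero, mul_one]
  have hphiT : phi x' T = Polynomial.X := by
    rw [phi_hom, map_one, map_one, one_mul, pow_one]
  have hphiL : ∀ i, Polynomial.eval₂ (phi x') (Polynomial.C (x 0) * Polynomial.X ^ 1) (L i) =
      Polynomial.C (x i) * Polynomial.X := by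
    intro i
    simp only [L, Polynomial.eval₂_add, Polynomial.eval₂_mul, Polynomial.eval₂_C,
      Polynomial.eval₂_X, hphiκ]
    refine Fin.cases ?_ (fun i => ?_) i
    · rw [hβ0, map_one, map_one, one_mul, pow_one]
      simp [t]
    · have : phi x' (t i.succ) = Polynomial.C (x' i) * Polynomial.X := by
        simp only [t, Fin.cons_succ]
        rw [phi_hom, aeval_X, pow_one]
      rw [this, hx']
      simp only [map_sub, Algebra.smul_def, map_mul, pow_one]
      ring
  rw [Polynomial.eval₂_mul]
  have hzero : Polynomial.eval₂ (phi x') (Polynomial.C (x 0) * Polynomial.X ^ 1) P = 0 := by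
    rw [Polynomial.eval₂_finset_sum]
    have h1 : ∀ α ∈ G.support, Polynomial.eval₂ (phi x') (Polynomial.C (x 0) * Polynomial.X ^ 1)
        (Polynomial.C (κR (coeff α G) * T ^ (d - ∑ i, α i)) * ∏ i, L i ^ α i) =
        Polynomial.C (algebraMap κ F (coeff α G) * ∏ i, x i ^ α i) * Polynomial.X ^ d := by
      intro α hα
      rw [Polynomial.eval₂_mul, Polynomial.eval₂_C, Polynomial.eval₂_finset_prod]
      simp only [Polynomial.eval₂_pow, hphiL, map_mul, map_pow, hphiκ, hphiT, mul_pow,
        Finset.prod_mul_distrib, Finset.prod_pow_eq_pow_sum, map_prod]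
      have h2 : (Polynomial.X : Polynomial F) ^ d = Polynomial.X ^ (d - ∑ i, α i) *
          Polynomial.X ^ (∑ i, α i) := by
        rw [← pow_add, Nat.sub_add_cancel (hsum α hα)]
      rw [h2]
      ring
    rw [Finset.sum_congr rfl h1, ← Finset.sum_mul, ← map_sum]
    have h2 : ∑ α ∈ G.support, algebraMap κ F (coeff α G) * ∏ i, x i ^ α i = aeval x G := by
      rw [aeval_def, eval₂_eq']
    rw [h2, hG, map_zero, zero_mul]
  rw [hzero, mul_zero]

/-- **Linear Noether normalization.** -/
theorem exists_normalization [Infinite κ] : ∀ (n : ℕ) (x : Fin n → F),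
    ∃ (k : ℕ) (l : Fin k → F), AlgebraicIndependent κ l ∧
      (∀ i, l i ∈ Submodule.span κ (Set.range x)) ∧ ∀ i, Bd κ l (x i) 1 := by
  intro n
  induction n with
  | zero =>
    intro x
    exact ⟨0, x, algebraicIndependent_empty_type_iff.2 (algebraMap κ F).injective,
      fun i => i.elim0, fun i => i.elim0⟩
  | succ n ih =>
    intro x
    by_cases h : AlgebraicIndependent κ x
    · exact ⟨n + 1, x, h, fun i => Submodule.subset_span ⟨i, rfl⟩, fun i => Bd.gen i⟩
    · obtain ⟨b, hb⟩ := step x h
      obtain ⟨k, l, h1, h2, h3⟩ := ih (fun i => x i.succ - b i • x 0)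
      have h0 : Bd κ l (x 0) 1 := Bd.trans h3 hb
      refine ⟨k, l, h1, fun i => ?_, fun i => ?_⟩
      · refine (Submodule.span_le.2 ?_) (h2 i)
        rintro _ ⟨j, rfl⟩
        exact Submodule.sub_mem _ (Submodule.subset_span ⟨_, rfl⟩)
          (Submodule.smul_mem _ _ (Submodule.subset_span ⟨_, rfl⟩))
      · refine Fin.cases h0 (fun j => ?_) i
        have := (h3 j).add (h0.smul (b j))
        rwa [sub_add_cancel] at this

end Pool.Agent.U10.Dg
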