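import Pool.Agent.U10.Dg.Lin

/-!
# Norms of elements of bounded growth

If `y` has growth at most `M` over algebraically independent elements `l_1, …, l_k` then the norm of `y`
for the extension `F` of `κ(l)` is a polynomial in `l` of degree at most `M [F : κ(l)]`.
-/

set_option autoImplicit false

namespace Pool.Agent.U10.Dg

open MvPolynomial Module

variable {κ : Type*} [Field κ] {F : Type*} [Field F] [Algebra κ F]

theorem totalDegree_pow_dom {n : ℕ} {P : MvPolynomial (Fin n) κ} (hP : P ≠ 0) (d : ℕ) :
    (P ^ d).totalDegree = d * P.totalDegree := by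
  induction d with
  | zero => rw [pow_zero, totalDegree_one, zero_mul]
  | succ d ih =>
    rw [pow_succ, totalDegree_mul_of_isDomain (pow_ne_zero d hP) hP, ih, Nat.succ_mul]

/-- Elements of bounded growth in the field `κ(l)` are polynomials. -/
theorem exists_poly {k : ℕ} {l : Fin k → F} (hl : AlgebraicIndependent κ l) {y : F} {M : ℕ}
    (hy : Bd κ l y M) (a b : MvPolynomial (Fin k) κ) (hb : b ≠ 0)
    (hab : y * aeval l b = aeval l a) :
    ∃ P : MvPolynomial (Fin k) κ, P.totalDegree ≤ M ∧ aeval l P = y := by
  classical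
  obtain ⟨d, c, hc, he⟩ := hy.exists_eq
  set L := FractionRing (MvPolynomial (Fin k) κ) with hL
  have hinj : Function.Injective (aeval l : MvPolynomial (Fin k) κ →ₐ[κ] F) := hl
  let e : L →+* F := IsFractionRing.lift (g := (aeval l : MvPolynomial (Fin k) κ →ₐ[κ] F).toRingHom)
    hinj
  have he1 : ∀ P : MvPolynomial (Fin k) κ, e (algebraMap _ L P) = aeval l P := fun P =>
    IsFractionRing.lift_algebraMap _ P
  have hb' : algebraMap (MvPolynomial (Fin k) κ) L b ≠ 0 := by
    rwa [Ne, IsFractionRing.to_map_eq_zero_iff]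
  have hb'' : aeval l b ≠ 0 := fun h => hb (hinj (by rw [h, map_zero]))
  set q : L := algebraMap _ L a / algebraMap _ L b with hq
  have heq : e q = y := by
    rw [hq, map_div₀, he1, he1, ← hab, mul_div_cancel_right₀ _ hb'']
  have hint : IsIntegral (MvPolynomial (Fin k) κ) q := by
    have h1 : q ^ d + ∑ j ∈ Finset.range d, algebraMap _ L (c j) * q ^ j = 0 := by
      apply e.injective
      rw [map_zero, map_add, map_pow, heq, map_sum]
      simp only [map_mul, map_pow, he1, heq]
      exact he
    refine ⟨Polynomial.X ^ d + ∑ j ∈ Finset.range d, Polynomial.C (c j) * Polynomial.X ^ j,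
      Polynomial.monic_X_pow_add ?_, ?_⟩
    · refine (Polynomial.degree_sum_le _ _).trans_lt ?_
      rw [Finset.sup_lt_iff (by exact WithBot.bot_lt_coe d)]
      intro j hj
      refine (Polynomial.degree_C_mul_X_pow_le _ _).trans_lt ?_
      exact_mod_cast Finset.mem_range.1 hj
    · rw [Polynomial.eval₂_add, Polynomial.eval₂_X_pow, Polynomial.eval₂_finset_sum]
      simpa [Polynomial.eval₂_mul, Polynomial.eval₂_C, Polynomial.eval₂_X_pow] using h1
  obtain ⟨P, hP⟩ := IsIntegrallyClosed.isIntegral_iff.1 hint
  have hPy : aeval l P = y := by rw [← he1, hP, heq]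
  refine ⟨P, ?_, hPy⟩
  by_contra hcon
  push Not at hcon
  have hP0 : P ≠ 0 := by
    rintro rfl
    rw [totalDegree_zero] at hcon
    exact absurd hcon (Nat.not_lt_zero _)
  have h1 : P ^ d + ∑ j ∈ Finset.range d, c j * P ^ j = 0 := by
    apply hinj
    rw [map_add, map_pow, map_sum, map_zero]
    simp only [map_mul, map_pow, hPy]
    exact he
  have h2 : P ^ d = -∑ j ∈ Finset.range d, c j * P ^ j := eq_neg_of_add_eq_zero_left h1
  rcases Nat.eq_zero_or_pos d with h0 | h0
  · subst h0
    rw [pow_zero, Finset.range_zero, Finset.sum_empty, neg_zero] at h2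
    exact one_ne_zero h2
  · have h3 : (P ^ d).totalDegree < d * P.totalDegree := by
      rw [h2, totalDegree_neg]
      refine (totalDegree_finsetSum _ _).trans_lt ?_
      rw [Finset.sup_lt_iff (Nat.mul_pos h0 (by omega))]
      intro j hj
      have hj := Finset.mem_range.1 hj
      refine (totalDegree_mul _ _).trans_lt ?_
      rw [totalDegree_pow_dom hP0]
      have h4 := hc j
      obtain ⟨i, rfl⟩ := Nat.exists_eq_add_of_lt hj
      have h5 : j + i + 1 - j = i + 1 := by omega
      rw [h5] at h4
      nlinarith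
    rw [totalDegree_pow_dom hP0] at h3
    exact lt_irrefl _ h3

theorem Bd.isIntegral {k : ℕ} {l : Fin k → F} {y : F} {M : ℕ} (hy : Bd κ l y M) :
    IsIntegral (IntermediateField.adjoin κ (Set.range l)) y := by
  classical
  obtain ⟨d, c, -, he⟩ := hy.exists_eq
  have hmem : ∀ P : MvPolynomial (Fin k) κ,
      MvPolynomial.aeval l P ∈ IntermediateField.adjoin κ (Set.range l) := fun P => by
    rw [IntermediateField.mem_adjoin_range_iff]
    exact ⟨P, 1, by rw [map_one, div_one]⟩
  refine ⟨Polynomial.X ^ d + ∑ j ∈ Finset.range d,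
      Polynomial.C (⟨MvPolynomial.aeval l (c j), hmem _⟩ : IntermediateField.adjoin κ (Set.range l)) *
        Polynomial.X ^ j, Polynomial.monic_X_pow_add ?_, ?_⟩
  · refine (Polynomial.degree_sum_le _ _).trans_lt ?_
    rw [Finset.sup_lt_iff (by exact WithBot.bot_lt_coe d)]
    intro j hj
    refine (Polynomial.degree_C_mul_X_pow_le _ _).trans_lt ?_
    exact_mod_cast Finset.mem_range.1 hj
  · rw [Polynomial.eval₂_add, Polynomial.eval₂_X_pow, Polynomial.eval₂_finset_sum]
    simpa [Polynomial.eval₂_mul, Polynomial.eval₂_C, Polynomial.eval₂_X_pow] using he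

/-- **Norms of elements of bounded growth.** -/
theorem exists_norm [CharZero F] {k : ℕ} {l : Fin k → F} (hl : AlgebraicIndependent κ l)
    [FiniteDimensional (IntermediateField.adjoin κ (Set.range l)) F] {u : F} {M : ℕ}
    (hu : Bd κ l u M) :
    ∃ P : MvPolynomial (Fin k) κ,
      P.totalDegree ≤ finrank (IntermediateField.adjoin κ (Set.range l)) F * M ∧
      aeval l P = algebraMap (IntermediateField.adjoin κ (Set.range l)) F
        (Algebra.norm (IntermediateField.adjoin κ (Set.range l)) u) := by
  classical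
  set K := IntermediateField.adjoin κ (Set.range l) with hK
  set N := Algebra.norm K u with hN
  have hbd : Bd κ l (algebraMap K F N) (finrank K F * M) := by
    let Ω := AlgebraicClosure F
    have hprod : algebraMap K Ω N = ∏ σ : F →ₐ[K] Ω, σ u := Algebra.norm_eq_prod_embeddings K Ω u
    have hcard : Fintype.card (F →ₐ[K] Ω) = finrank K F := AlgHom.card K F Ω
    have hσ : ∀ σ : F →ₐ[K] Ω, Bd κ (fun i => algebraMap F Ω (l i)) (σ u) M := by
      intro σ
      have h1 := hu.map (σ.restrictScalars κ)
      have h2 : (fun i => (σ.restrictScalars κ) (l i)) = fun i => algebraMap F Ω (l i) := by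
        funext i
        have h3 : l i ∈ K := IntermediateField.subset_adjoin κ _ ⟨i, rfl⟩
        have h4 : l i = algebraMap K F ⟨l i, h3⟩ := rfl
        rw [h4]
        change σ (algebraMap K F _) = _
        rw [σ.commutes, IsScalarTower.algebraMap_apply K F Ω]
      rw [h2] at h1
      exact h1
    have h1 := Bd.prod (κ := κ) (x := fun i => algebraMap F Ω (l i)) Finset.univ
      (fun σ : F →ₐ[K] Ω => σ u) (fun _ => M) (fun σ _ => hσ σ)
    rw [Finset.sum_const, Finset.card_univ, hcard, smul_eq_mul, ← hprod,
      IsScalarTower.algebraMap_apply K F Ω] at h1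
    exact Bd.of_map (IsScalarTower.toAlgHom κ F Ω) h1
  have hmem : (algebraMap K F N) ∈ IntermediateField.adjoin κ (Set.range l) := N.2
  obtain ⟨a, b, hab⟩ := (IntermediateField.mem_adjoin_range_iff κ l _).1 hmem
  by_cases hb : aeval l b = 0
  · rw [hb, div_zero] at hab
    refine ⟨0, by rw [totalDegree_zero]; exact Nat.zero_le _, ?_⟩
    rw [hab, map_zero]
  · refine exists_poly hl hbd a b ?_ ?_
    · rintro rfl
      exact hb (map_zero _)
    · rw [hab, div_mul_cancel₀ _ hb]

end Pool.Agent.U10.Dg
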