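import Pool.Agent.U10.Dg.Cx
import Pool.Agent.Y787.PInst

/-!
# Points with logarithmic coordinates: the `p`-adic case
-/

set_option autoImplicit false

namespace Pool.Agent.U10.Dg

open MvPolynomial Module
open Pool.Agent.Y787 (QC HypC)
open Pool.Agent.W245.PB (IsIwasawaLog)

variable {p : ℕ} [hp : Fact p.Prime] {L : PadicAlgCl p → PadicAlgCl p}

/-- the rank of `p`-adic logarithms and the dimension of the space of linear forms -/
theorem rank_succ_le_padic (hL : IsIwasawaLog p L) {n : ℕ} (l : Fin n → PadicAlgCl p)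
    (hl : ∀ j, ∃ α : PadicAlgCl p, α ≠ 0 ∧ IsAlgebraic ℚ α ∧ l j = L α) :
    finrank ℚ (Submodule.span ℚ (Set.range l)) + 1 ≤
      finrank (QC (PadicAlgCl p)) (Submodule.span (QC (PadicAlgCl p)) ({1} ∪ Set.range l) :
        Submodule (QC (PadicAlgCl p)) (PadicAlgCl p)) := by
  classical
  have hQfd : FiniteDimensional ℚ (Submodule.span ℚ (Set.range l)) :=
    FiniteDimensional.span_of_finite ℚ (Set.finite_range l)
  obtain ⟨f, hf, -, hli⟩ := Submodule.exists_fun_fin_finrank_span_eq ℚ (Set.range l)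
  have hfa : ∀ j, ∃ α : PadicAlgCl p, α ≠ 0 ∧ IsAlgebraic ℚ α ∧ f j = L α := fun i => by
    obtain ⟨j, hj⟩ := hf i
    rw [← hj]
    exact hl j
  have h1 := Pool.Agent.Y787.li_consP hL f hfa hli
  have h2 := finrank_span_eq_card h1
  rw [Fintype.card_fin] at h2
  rw [← h2]
  have hfd : FiniteDimensional (QC (PadicAlgCl p)) (Submodule.span (QC (PadicAlgCl p))
      ({1} ∪ Set.range l) : Submodule (QC (PadicAlgCl p)) (PadicAlgCl p)) :=
    FiniteDimensional.span_of_finite _ ((Set.finite_singleton _).union (Set.finite_range l))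
  refine Submodule.finrank_mono ?_
  rw [Submodule.span_le]
  rintro _ ⟨o, rfl⟩
  refine Fin.cases ?_ (fun i => ?_) o
  · exact Submodule.subset_span (Or.inl rfl)
  · exact Submodule.subset_span (Or.inr (hf i))

end Pool.Agent.U10.Dg
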