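import Mathlib

/-!
# Elements of bounded growth over a family of elements

`Rees n κ` is the ring of the polynomials `∑ c_r T ^ r`, `c_r` a polynomial in `n` variables of total
degree at most `r`.  An element `y` of an extension field `F` has growth at most `r` over
`x_1, …, x_n ∈ F` if `y T ^ r` is integral over the image of this ring in `F[T]`.
-/

set_option autoImplicit false

namespace Pool.Agent.U10.Dg

open MvPolynomial

/-- The polynomials `∑ c_r T ^ r` with `deg c_r ≤ r`. -/
def ReesAlg (n : ℕ) (κ : Type*) [Field κ] : Subalgebra κ (Polynomial (MvPolynomial (Fin n) κ)) where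
  carrier := {q | ∀ r, (q.coeff r).totalDegree ≤ r}
  mul_mem' := by
    intro a b ha hb r
    rw [Polynomial.coeff_mul]
    refine (totalDegree_finsetSum _ _).trans (Finset.sup_le ?_)
    rintro ⟨i, j⟩ hij
    rw [Finset.HasAntidiagonal.mem_antidiagonal] at hij
    refine (totalDegree_mul _ _).trans ?_
    have h1 := ha i
    have h2 := hb j
    simp only at hij ⊢
    omega
  add_mem' := by
    intro a b ha hb r
    rw [Polynomial.coeff_add]
    exact (totalDegree_add _ _).trans (max_le (ha r) (hb r))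
  algebraMap_mem' := by
    intro c r
    rw [Polynomial.algebraMap_apply, Polynomial.coeff_C]
    split_ifs with h
    · rw [algebraMap_eq, totalDegree_C]; exact Nat.zero_le _
    · rw [totalDegree_zero]; exact Nat.zero_le _

/-- The ring of these polynomials. -/
def Rees (n : ℕ) (κ : Type*) [Field κ] : Type _ := ReesAlg n κ

noncomputable instance (n : ℕ) (κ : Type*) [Field κ] : CommRing (Rees n κ) :=
  inferInstanceAs (CommRing (ReesAlg n κ))

/-- the underlying polynomial -/
noncomputable def Rees.val (n : ℕ) (κ : Type*) [Field κ] :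
    Rees n κ →+* Polynomial (MvPolynomial (Fin n) κ) := (ReesAlg n κ).val.toRingHom

theorem Rees.le {n : ℕ} {κ : Type*} [Field κ] (q : Rees n κ) (r : ℕ) :
    ((Rees.val n κ q).coeff r).totalDegree ≤ r := q.2 r

variable {κ : Type*} [Field κ] {F : Type*} [Field F] [Algebra κ F]

/-- The specialization `X_i ↦ x_i`. -/
noncomputable def phi {n : ℕ} (x : Fin n → F) : Rees n κ →+* Polynomial F :=
  (Polynomial.mapRingHom (aeval x : MvPolynomial (Fin n) κ →ₐ[κ] F).toRingHom).comp
    (Rees.val n κ)

theorem coeff_phi {n : ℕ} (x : Fin n → F) (q : Rees n κ) (r : ℕ) :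
    (phi x q).coeff r = aeval x ((Rees.val n κ q).coeff r) := by
  simp [phi]

/-- the element `P T ^ r`, `deg P ≤ r` -/
noncomputable def hom {n : ℕ} (P : MvPolynomial (Fin n) κ) (r : ℕ) (h : P.totalDegree ≤ r) :
    Rees n κ :=
  (⟨Polynomial.monomial r P, fun s => by
    rw [Polynomial.coeff_monomial]
    split_ifs with hs
    · rw [← hs]; exact h
    · rw [totalDegree_zero]; exact Nat.zero_le _⟩ : ReesAlg n κ)

theorem val_hom {n : ℕ} (P : MvPolynomial (Fin n) κ) (r : ℕ) (h : P.totalDegree ≤ r) :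
    Rees.val n κ (hom P r h) = Polynomial.monomial r P := rfl

theorem phi_hom {n : ℕ} (x : Fin n → F) (P : MvPolynomial (Fin n) κ) (r : ℕ)
    (h : P.totalDegree ≤ r) :
    phi x (hom P r h) = Polynomial.C (aeval x P) * Polynomial.X ^ r := by
  rw [Polynomial.C_mul_X_pow_eq_monomial]
  simp [phi, val_hom]

/-- The growth of `y` over the family `x` is at most `r`. -/
def Bd (κ : Type*) [Field κ] {F : Type*} [Field F] [Algebra κ F] {n : ℕ} (x : Fin n → F) (y : F)
    (r : ℕ) : Prop :=
  (phi (κ := κ) x).IsIntegralElem (Polynomial.C y * Polynomial.X ^ r)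

section basic

variable {n : ℕ} {x : Fin n → F}

theorem Bd.aeval (P : MvPolynomial (Fin n) κ) {r : ℕ} (h : P.totalDegree ≤ r) :
    Bd κ x (MvPolynomial.aeval x P) r := by
  unfold Bd
  rw [← phi_hom x P r h]
  exact RingHom.isIntegralElem_map _

theorem Bd.const (c : κ) (r : ℕ) : Bd κ x (algebraMap κ F c) r := by
  have := Bd.aeval (x := x) (C c) (r := r) (by rw [totalDegree_C]; exact Nat.zero_le _)
  rwa [aeval_C] at this

theorem Bd.zero (r : ℕ) : Bd κ x (0 : F) r := by
  have := Bd.const (κ := κ) (x := x) 0 r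
  rwa [map_zero] at this

theorem Bd.one (r : ℕ) : Bd κ x (1 : F) r := by
  have := Bd.const (κ := κ) (x := x) 1 r
  rwa [map_one] at this

theorem Bd.gen (i : Fin n) : Bd κ x (x i) 1 := by
  have := Bd.aeval (x := x) (X i : MvPolynomial (Fin n) κ) (r := 1) (totalDegree_X i).le
  rwa [aeval_X] at this

theorem Bd.add {y z : F} {r : ℕ} (hy : Bd κ x y r) (hz : Bd κ x z r) : Bd κ x (y + z) r := by
  unfold Bd at *
  rw [map_add, add_mul]
  exact hy.add _ hz

theorem Bd.mul {y z : F} {r s : ℕ} (hy : Bd κ x y r) (hz : Bd κ x z s) :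
    Bd κ x (y * z) (r + s) := by
  unfold Bd at *
  rw [map_mul, pow_add]
  have := hy.mul _ hz
  rwa [show Polynomial.C y * Polynomial.X ^ r * (Polynomial.C z * Polynomial.X ^ s) =
    Polynomial.C y * Polynomial.C z * (Polynomial.X ^ r * Polynomial.X ^ s : Polynomial F) by ring]
    at this

theorem Bd.mono {y : F} {r s : ℕ} (hy : Bd κ x y r) (h : r ≤ s) : Bd κ x y s := by
  have := hy.mul (Bd.one (κ := κ) (x := x) (s - r))
  rwa [mul_one, Nat.add_sub_cancel' h] at this

theorem Bd.smul {y : F} {r : ℕ} (hy : Bd κ x y r) (c : κ) : Bd κ x (c • y) r := by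
  have := (Bd.const (κ := κ) (x := x) c 0).mul hy
  rwa [zero_add, ← Algebra.smul_def] at this

theorem Bd.sum {ι : Type*} (s : Finset ι) (f : ι → F) {r : ℕ} (h : ∀ i ∈ s, Bd κ x (f i) r) :
    Bd κ x (∑ i ∈ s, f i) r := by
  classical
  induction s using Finset.induction_on with
  | empty => rw [Finset.sum_empty]; exact Bd.zero r
  | insert a s ha ih =>
    rw [Finset.sum_insert ha]
    exact (h a (Finset.mem_insert_self a s)).add
      (ih fun i hi => h i (Finset.mem_insert_of_mem hi))

theorem Bd.prod {ι : Type*} (s : Finset ι) (f : ι → F) (r : ι → ℕ)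
    (h : ∀ i ∈ s, Bd κ x (f i) (r i)) : Bd κ x (∏ i ∈ s, f i) (∑ i ∈ s, r i) := by
  classical
  induction s using Finset.induction_on with
  | empty => rw [Finset.prod_empty, Finset.sum_empty]; exact Bd.one 0
  | insert a s ha ih =>
    rw [Finset.prod_insert ha, Finset.sum_insert ha]
    exact (h a (Finset.mem_insert_self a s)).mul
      (ih fun i hi => h i (Finset.mem_insert_of_mem hi))

theorem Bd.pow {y : F} {r : ℕ} (hy : Bd κ x y r) (m : ℕ) : Bd κ x (y ^ m) (m * r) := by
  induction m with
  | zero => rw [pow_zero, zero_mul]; exact Bd.one 0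
  | succ m ih => rw [pow_succ, Nat.succ_mul]; exact ih.mul hy

/-- polynomials in elements of growth `1` -/
theorem Bd.aeval_of {n' : ℕ} {y : Fin n' → F} (hy : ∀ i, Bd κ x (y i) 1)
    (P : MvPolynomial (Fin n') κ) {r : ℕ} (h : P.totalDegree ≤ r) :
    Bd κ x (MvPolynomial.aeval y P) r := by
  rw [MvPolynomial.aeval_def, MvPolynomial.eval₂_eq]
  refine Bd.sum _ _ fun d hd => ?_
  have h1 : Bd κ x (∏ i ∈ d.support, y i ^ d i) (∑ i ∈ d.support, d i) := by
    refine Bd.prod _ _ _ fun i _ => ?_
    have := (hy i).pow (d i)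
    rwa [mul_one] at this
  have h2 : ∑ i ∈ d.support, d i ≤ r := (le_totalDegree hd).trans h
  have := (Bd.const (κ := κ) (x := x) (P.coeff d) 0).mul (h1.mono h2)
  rwa [zero_add] at this

/-- transitivity -/
theorem Bd.trans {n' : ℕ} {y : Fin n' → F} (hy : ∀ i, Bd κ x (y i) 1) {z : F} {r : ℕ}
    (hz : Bd κ y z r) : Bd κ x z r := by
  letI : Algebra (Rees n κ) (Polynomial F) := (phi (κ := κ) x).toAlgebra
  have hint : ∀ q : Rees n' κ, IsIntegral (Rees n κ) (phi (κ := κ) y q) := by
    intro q
    have h1 : phi (κ := κ) y q = ∑ r ∈ (phi (κ := κ) y q).support,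
        Polynomial.C (MvPolynomial.aeval y ((Rees.val n' κ q).coeff r)) * Polynomial.X ^ r := by
      conv_lhs => rw [Polynomial.as_sum_support_C_mul_X_pow (phi (κ := κ) y q)]
      exact Finset.sum_congr rfl fun r _ => by rw [coeff_phi]
    rw [h1]
    refine IsIntegral.sum _ fun r _ => ?_
    exact Bd.aeval_of (x := x) hy _ (q.le r)
  let T := integralClosure (Rees n κ) (Polynomial F)
  let g : Rees n' κ →+* T := (phi (κ := κ) y).codRestrict T hint
  have hg : (algebraMap T (Polynomial F)).comp g = phi (κ := κ) y := by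
    ext q; rfl
  have h2 : IsIntegral T (Polynomial.C z * Polynomial.X ^ r) := by
    obtain ⟨p, hp, hpe⟩ := hz
    refine ⟨p.map g, hp.map g, ?_⟩
    rw [Polynomial.eval₂_map, hg]
    exact hpe
  have h3 : IsIntegral (Rees n κ) (Polynomial.C z * Polynomial.X ^ r : Polynomial F) :=
    isIntegral_trans _ h2
  exact h3

/-- change of field -/
theorem Bd.map {F' : Type*} [Field F'] [Algebra κ F'] (σ : F →ₐ[κ] F') {y : F} {r : ℕ}
    (hy : Bd κ x y r) : Bd κ (fun i => σ (x i)) (σ y) r := by
  obtain ⟨p, hp, hpe⟩ := hy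
  refine ⟨p, hp, ?_⟩
  have h1 : phi (κ := κ) (fun i => σ (x i)) =
      (Polynomial.mapRingHom (σ : F →+* F')).comp (phi (κ := κ) x) := by
    apply RingHom.ext
    intro q
    ext r
    rw [coeff_phi, RingHom.comp_apply, Polynomial.coe_mapRingHom, Polynomial.coeff_map, coeff_phi]
    have : MvPolynomial.aeval (fun i => σ (x i)) = σ.comp (MvPolynomial.aeval (R := κ) x) := by
      ext i; simp
    rw [this]; rfl
  have h2 : (Polynomial.C (σ y) * Polynomial.X ^ r : Polynomial F') =
      Polynomial.mapRingHom (σ : F →+* F') (Polynomial.C y * Polynomial.X ^ r) := by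
    simp
  rw [h1, h2, ← Polynomial.hom_eval₂, hpe, map_zero]

theorem Bd.of_map {F' : Type*} [Field F'] [Algebra κ F'] (σ : F →ₐ[κ] F') {y : F} {r : ℕ}
    (hy : Bd κ (fun i => σ (x i)) (σ y) r) : Bd κ x y r := by
  obtain ⟨p, hp, hpe⟩ := hy
  refine ⟨p, hp, ?_⟩
  have h1 : phi (κ := κ) (fun i => σ (x i)) =
      (Polynomial.mapRingHom (σ : F →+* F')).comp (phi (κ := κ) x) := by
    apply RingHom.ext
    intro q
    ext r
    rw [coeff_phi, RingHom.comp_apply, Polynomial.coe_mapRingHom, Polynomial.coeff_map, coeff_phi]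
    have : MvPolynomial.aeval (fun i => σ (x i)) = σ.comp (MvPolynomial.aeval (R := κ) x) := by
      ext i; simp
    rw [this]; rfl
  have h2 : (Polynomial.C (σ y) * Polynomial.X ^ r : Polynomial F') =
      Polynomial.mapRingHom (σ : F →+* F') (Polynomial.C y * Polynomial.X ^ r) := by
    simp
  rw [h1, h2, ← Polynomial.hom_eval₂] at hpe
  exact (map_eq_zero_iff _ (Polynomial.map_injective _ (σ : F →+* F').injective)).1 hpe

/-- The equation of an element of growth at most `M`. -/
theorem Bd.exists_eq {y : F} {M : ℕ} (hy : Bd κ x y M) :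
    ∃ (d : ℕ) (c : ℕ → MvPolynomial (Fin n) κ), (∀ j, (c j).totalDegree ≤ M * (d - j)) ∧
      y ^ d + ∑ j ∈ Finset.range d, MvPolynomial.aeval x (c j) * y ^ j = 0 := by
  obtain ⟨p, hp, hpe⟩ := hy
  refine ⟨p.natDegree, fun j => (Rees.val n κ (p.coeff j)).coeff (M * (p.natDegree - j)),
    fun j => (p.coeff j).le _, ?_⟩
  have h1 := congrArg (fun f => Polynomial.coeff f (M * p.natDegree)) hpe
  simp only [Polynomial.coeff_zero] at h1
  rw [Polynomial.eval₂_eq_sum_range, Polynomial.finsetSum_coeff, Finset.sum_range_succ] at h1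
  have h2 : ∀ j ∈ Finset.range (p.natDegree + 1),
      (phi x (p.coeff j) * (Polynomial.C y * Polynomial.X ^ M) ^ j).coeff (M * p.natDegree) =
        MvPolynomial.aeval x ((Rees.val n κ (p.coeff j)).coeff (M * (p.natDegree - j))) * y ^ j := by
    intro j hj
    have hj' : j ≤ p.natDegree := Nat.lt_succ_iff.1 (Finset.mem_range.1 hj)
    rw [mul_pow, ← map_pow, ← pow_mul, mul_left_comm, Polynomial.coeff_C_mul, mul_comm (y ^ j)]
    congr 1
    have : M * p.natDegree = M * (p.natDegree - j) + M * j := by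
      rw [← Nat.mul_add, Nat.sub_add_cancel hj']
    rw [this, Polynomial.coeff_mul_X_pow, coeff_phi]
  rw [Finset.sum_congr rfl fun j hj => h2 j (Finset.mem_range.2
    ((Finset.mem_range.1 hj).trans (Nat.lt_succ_self _))), h2 _ (Finset.self_mem_range_succ _),
    Polynomial.Monic.coeff_natDegree hp, Nat.sub_self, mul_zero] at h1
  have h3 : (Rees.val n κ 1).coeff 0 = 1 := by
    rw [map_one, Polynomial.coeff_one_zero]
  rw [h3, map_one, one_mul] at h1
  rw [add_comm]
  exact h1

end basic

end Pool.Agent.U10.Dg
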