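import Pool.Agent.U10.Dg.Nrm
import Pool.Agent.U10.Dg.Eig

/-!
# The dimension of spaces of elements whose norms have bounded degree

Let `l_1, …, l_k` be algebraically independent, `F` finite of degree `δ` over `κ(l)` and `U` a space of
elements of `F` whose norms are polynomials in `l` of degree at most `δ (m + 1)`.  Then
`dim U ≤ δ (m + k choose k) + (m + k choose m + 1)`: consider the Taylor polynomials of degree `m` of the
coordinates at a general point and the terms of degree `m + 1` of one conjugate.
-/

set_option autoImplicit false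

namespace Pool.Agent.U10.Dg

open MvPolynomial Module

section van

variable {κ : Type*} [Field κ] {k : ℕ}

/-- translation -/
noncomputable def tr (c : Fin k → κ) : MvPolynomial (Fin k) κ →ₐ[κ] MvPolynomial (Fin k) κ :=
  aeval fun i => X i + C (c i)

/-- vanishing of order `r` at `c` -/
def Van (c : Fin k → κ) (r : ℕ) (P : MvPolynomial (Fin k) κ) : Prop :=
  ∀ α : Fin k →₀ ℕ, (∑ i, α i) < r → coeff α (tr c P) = 0

theorem Van.add {c : Fin k → κ} {r : ℕ} {P Q : MvPolynomial (Fin k) κ} (hP : Van c r P)
    (hQ : Van c r Q) : Van c r (P + Q) := by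
  intro α hα
  rw [map_add, coeff_add, hP α hα, hQ α hα, add_zero]

theorem Van.sum {c : Fin k → κ} {r : ℕ} {ι : Type*} (s : Finset ι) (f : ι → MvPolynomial (Fin k) κ)
    (h : ∀ i ∈ s, Van c r (f i)) : Van c r (∑ i ∈ s, f i) := by
  intro α hα
  rw [map_sum, coeff_sum]
  exact Finset.sum_eq_zero fun i hi => h i hi α hα

theorem Van.mul {c : Fin k → κ} {r s : ℕ} {P Q : MvPolynomial (Fin k) κ} (hP : Van c r P)
    (hQ : Van c s Q) : Van c (r + s) (P * Q) := by
  classical
  intro α hα
  rw [map_mul, coeff_mul]
  refine Finset.sum_eq_zero ?_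
  rintro ⟨β, γ⟩ h
  rw [Finset.HasAntidiagonal.mem_antidiagonal] at h
  simp only at h ⊢
  have h1 : ∑ i, β i + ∑ i, γ i = ∑ i, α i := by
    rw [← Finset.sum_add_distrib]
    exact Finset.sum_congr rfl fun i _ => by rw [← h, Finsupp.add_apply]
  by_cases hβ : ∑ i, β i < r
  · rw [hP β hβ, zero_mul]
  · rw [hQ γ (by omega), mul_zero]

theorem Van.zeroth {c : Fin k → κ} (P : MvPolynomial (Fin k) κ) : Van c 0 P :=
  fun _ h => absurd h (Nat.not_lt_zero _)

theorem Van.mul_left {c : Fin k → κ} {r : ℕ} {P : MvPolynomial (Fin k) κ} (hP : Van c r P)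
    (Q : MvPolynomial (Fin k) κ) : Van c r (P * Q) := by
  have := hP.mul (Van.zeroth Q)
  rwa [add_zero] at this

theorem Van.prod {c : Fin k → κ} {r : ℕ} {ι : Type*} (s : Finset ι)
    (f : ι → MvPolynomial (Fin k) κ) (h : ∀ i ∈ s, Van c r (f i)) :
    Van c (s.card * r) (∏ i ∈ s, f i) := by
  classical
  induction s using Finset.induction_on with
  | empty =>
    rw [Finset.card_empty, zero_mul]
    exact Van.zeroth _
  | insert a s ha ih =>
    rw [Finset.prod_insert ha, Finset.card_insert_of_notMem ha, Nat.succ_mul, add_comm]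
    exact (h a (Finset.mem_insert_self a s)).mul
      (ih fun i hi => h i (Finset.mem_insert_of_mem hi))

theorem Van.prod' {c : Fin k → κ} {ι : Type*} (s : Finset ι)
    (f : ι → MvPolynomial (Fin k) κ) (r : ι → ℕ) (h : ∀ i ∈ s, Van c (r i) (f i)) :
    Van c (∑ i ∈ s, r i) (∏ i ∈ s, f i) := by
  classical
  induction s using Finset.induction_on with
  | empty => exact Van.zeroth _
  | insert a s ha ih =>
    rw [Finset.prod_insert ha, Finset.sum_insert ha]
    exact (h a (Finset.mem_insert_self a s)).mul
      (ih fun i hi => h i (Finset.mem_insert_of_mem hi))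

theorem Van.smul {c : Fin k → κ} {r : ℕ} {P : MvPolynomial (Fin k) κ} (hP : Van c r P) (a : κ) :
    Van c r (a • P) := by
  intro α hα
  rw [map_smul, coeff_smul, hP α hα, smul_zero]

theorem coeff_zero_tr (c : Fin k → κ) (P : MvPolynomial (Fin k) κ) :
    coeff 0 (tr c P) = eval c P := by
  rw [← constantCoeff_eq]
  have : (constantCoeff.comp (tr c : MvPolynomial (Fin k) κ →+* MvPolynomial (Fin k) κ)) =
      (eval c) := by
    apply MvPolynomial.ringHom_ext
    · intro a
      simp [tr]
    · intro i
      simp [tr]
  exact congrArg (fun f => f P) this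

theorem Van.cancel {c : Fin k → κ} {r : ℕ} {g P : MvPolynomial (Fin k) κ} (hg : eval c g ≠ 0)
    (h : Van c r (g * P)) : Van c r P := by
  classical
  have key : ∀ n, ∀ α : Fin k →₀ ℕ, ∑ i, α i = n → n < r → coeff α (tr c P) = 0 := by
    intro n
    induction n using Nat.strong_induction_on with
    | _ n ih =>
      intro α hα hn
      have h1 := h α (by omega)
      rw [map_mul, coeff_mul, Finset.sum_eq_single (0, α)] at h1
      · rw [coeff_zero_tr] at h1
        exact (mul_eq_zero.1 h1).resolve_left hg
      · rintro ⟨β, γ⟩ hβγ hne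
        rw [Finset.HasAntidiagonal.mem_antidiagonal] at hβγ
        simp only at hβγ ⊢
        have h2 : ∑ i, β i + ∑ i, γ i = ∑ i, α i := by
          rw [← Finset.sum_add_distrib]
          exact Finset.sum_congr rfl fun i _ => by rw [← hβγ, Finsupp.add_apply]
        have h3 : 0 < ∑ i, β i := by
          rw [Nat.pos_iff_ne_zero]
          intro h0
          apply hne
          have h4 : β = 0 := by
            ext i
            exact (Finset.sum_eq_zero_iff.1 h0) i (Finset.mem_univ i)
          rw [h4, zero_add] at hβγ
          rw [h4, hβγ]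
        rw [ih (∑ i, γ i) (by omega) γ rfl (by omega), mul_zero]
      · intro h2
        exact absurd (by rw [Finset.HasAntidiagonal.mem_antidiagonal]; exact zero_add α) h2
  exact fun α hα => key _ α rfl hα

theorem Van.sub_eval (c : Fin k → κ) (P : MvPolynomial (Fin k) κ) :
    Van c 1 (P - C (eval c P)) := by
  intro α hα
  have h0 : α = 0 := by
    ext i
    exact (Finset.sum_eq_zero_iff.1 (Nat.lt_one_iff.1 hα)) i (Finset.mem_univ i)
  rw [h0, coeff_zero_tr, map_sub, eval_C, sub_self]

/-- a determinant whose entries vanish to the order `m`, one row to the order `m + 1` -/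
theorem Van.det {c : Fin k → κ} {δ m : ℕ} (M : Matrix (Fin δ) (Fin δ) (MvPolynomial (Fin k) κ))
    (i₀ : Fin δ) (hM : ∀ s t, Van c m (M s t)) (hM' : ∀ t, Van c (m + 1) (M i₀ t)) :
    Van c (δ * m + 1) M.det := by
  classical
  rw [Matrix.det_apply]
  refine Van.sum _ _ fun σ _ => ?_
  have h1 : Van c (δ * m + 1) (∏ i, M (σ i) i) := by
    have h2 := Van.prod' (c := c) Finset.univ (fun i => M (σ i) i)
      (fun i => m + if σ i = i₀ then 1 else 0) (fun i _ => by
        split_ifs with h
        · rw [h]; exact hM' i
        · rw [add_zero]; exact hM _ _)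
    rw [Finset.sum_add_distrib, Finset.sum_const, Finset.card_univ, Fintype.card_fin,
      smul_eq_mul] at h2
    have h3 : ∑ i, (if σ i = i₀ then 1 else 0) = 1 := by
      rw [Finset.sum_eq_single (σ.symm i₀)]
      · rw [if_pos (σ.apply_symm_apply i₀)]
      · intro b _ hb
        rw [if_neg]
        rintro rfl
        exact hb (σ.symm_apply_apply b).symm
      · intro h; exact absurd (Finset.mem_univ _) h
    rwa [h3] at h2
  rw [Units.smul_def]
  rcases Int.units_eq_one_or (Equiv.Perm.sign σ) with h2 | h2
  · rw [h2, Units.val_one, one_smul]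
    exact h1
  · rw [h2, Units.val_neg, Units.val_one, neg_smul, one_smul]
    intro α hα
    rw [map_neg, coeff_neg, h1 α hα, neg_zero]

theorem totalDegree_tr_le (c : Fin k → κ) (P : MvPolynomial (Fin k) κ) :
    (tr c P).totalDegree ≤ P.totalDegree := by
  rw [tr, aeval_def, eval₂_eq]
  refine (totalDegree_finsetSum _ _).trans (Finset.sup_le fun d hd => ?_)
  refine (totalDegree_mul _ _).trans ?_
  rw [algebraMap_eq, totalDegree_C, zero_add]
  refine (totalDegree_finsetProd _ _).trans ?_
  refine le_trans (Finset.sum_le_sum fun i _ => ?_) (le_totalDegree hd)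
  refine (totalDegree_pow _ _).trans ?_
  have h1 : (X i + C (c i) : MvPolynomial (Fin k) κ).totalDegree ≤ 1 := by
    refine (totalDegree_add _ _).trans (max_le (totalDegree_X i).le ?_)
    rw [totalDegree_C]; exact Nat.zero_le _
  calc d i * _ ≤ d i * 1 := Nat.mul_le_mul_left _ h1
    _ = d i := mul_one _

theorem tr_injective (c : Fin k → κ) : Function.Injective (tr c) := by
  have h : (tr (fun i => - c i)).comp (tr c) = AlgHom.id κ _ := by
    ext i
    simp [tr]
  exact Function.LeftInverse.injective (g := tr (fun i => - c i)) fun P => by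
    have := congrArg (fun f : MvPolynomial (Fin k) κ →ₐ[κ] MvPolynomial (Fin k) κ => f P) h
    exact this

theorem Van.eq_zero {c : Fin k → κ} {r : ℕ} {P : MvPolynomial (Fin k) κ} (h : Van c r P)
    (hd : P.totalDegree < r) : P = 0 := by
  apply tr_injective c
  rw [map_zero]
  ext α
  rw [coeff_zero]
  by_cases hα : ∑ i, α i < r
  · exact h α hα
  · by_contra h0
    have h1 := le_totalDegree (mem_support_iff.2 h0)
    rw [Finsupp.sum_fintype _ _ (fun _ => rfl)] at h1
    have h2 := totalDegree_tr_le c P
    omega

end van

/-- the exponent vectors of total degree at most `m` -/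
noncomputable def expo (k m : ℕ) : Finset (Fin k →₀ ℕ) :=
  (Finset.range (m + 1)).biUnion fun i => (Finset.univ : Finset (Fin k)).finsuppAntidiag i

theorem mem_expo {k m : ℕ} {α : Fin k →₀ ℕ} : α ∈ expo k m ↔ ∑ i, α i ≤ m := by
  unfold expo
  simp only [Finset.mem_biUnion, Finset.mem_range, Finset.mem_finsuppAntidiag, Finset.subset_univ,
    and_true]
  constructor
  · rintro ⟨i, hi, h2⟩
    have h3 : ∑ i, α i = i := h2
    omega
  · intro h2
    exact ⟨∑ i, α i, by omega, rfl⟩

theorem card_expo (k m : ℕ) : (expo k m).card = (m + k).choose k := by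
  unfold expo
  rw [Finset.card_biUnion]
  · have h := Nat.sum_range_multichoose m k
    rw [← h]
    refine Finset.sum_congr rfl fun i _ => ?_
    rw [Finset.card_finsuppAntidiag_nat_eq_multichoose, Finset.card_univ, Fintype.card_fin]
  · intro i _ j _ hij
    rw [Function.onFun, Finset.disjoint_left]
    intro n h1 h2
    rw [Finset.mem_finsuppAntidiag] at h1 h2
    exact hij (h1.1.symm.trans h2.1)

variable {κ : Type*} [Field κ] {F : Type*} [Field F] [Algebra κ F]

/-- common denominators -/
theorem exists_den {k : ℕ} {l : Fin k → F} {ι : Type*} (s : Finset ι)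
    (z : ι → F) (hz : ∀ i ∈ s, z i ∈ IntermediateField.adjoin κ (Set.range l)) :
    ∃ g : MvPolynomial (Fin k) κ, aeval l g ≠ 0 ∧
      ∀ i ∈ s, ∃ r : MvPolynomial (Fin k) κ, aeval l g * z i = aeval l r := by
  classical
  induction s using Finset.induction_on with
  | empty => exact ⟨1, by rw [map_one]; exact one_ne_zero, fun i hi => absurd hi (Finset.notMem_empty i)⟩
  | insert a s ha ih =>
    obtain ⟨g, hg, h⟩ := ih fun i hi => hz i (Finset.mem_insert_of_mem hi)
    obtain ⟨p, q, hpq⟩ := (IntermediateField.mem_adjoin_range_iff κ l _).1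
      (hz a (Finset.mem_insert_self a s))
    by_cases hq : aeval l q = 0
    · refine ⟨g, hg, fun i hi => ?_⟩
      rcases Finset.mem_insert.1 hi with rfl | hi
      · refine ⟨0, ?_⟩
        rw [hpq, hq, div_zero, mul_zero, map_zero]
      · exact h i hi
    · refine ⟨g * q, by rw [map_mul]; exact mul_ne_zero hg hq, fun i hi => ?_⟩
      rcases Finset.mem_insert.1 hi with rfl | hi
      · refine ⟨g * p, ?_⟩
        rw [hpq, map_mul, map_mul, mul_assoc, mul_div_cancel₀ _ hq]
      · obtain ⟨r, hr⟩ := h i hi
        refine ⟨q * r, ?_⟩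
        rw [map_mul, map_mul, ← hr]
        ring

/-- **The dimension bound.** -/
theorem finrank_le_of_norm [IsAlgClosed κ] {k : ℕ} {l : Fin k → F} (hl : AlgebraicIndependent κ l)
    [FiniteDimensional (IntermediateField.adjoin κ (Set.range l)) F] (U : Submodule κ F)
    [FiniteDimensional κ U] (m : ℕ)
    (hU : ∀ u ∈ U, ∃ P : MvPolynomial (Fin k) κ,
      P.totalDegree ≤ finrank (IntermediateField.adjoin κ (Set.range l)) F * (m + 1) ∧
      aeval l P = algebraMap (IntermediateField.adjoin κ (Set.range l)) F
        (Algebra.norm (IntermediateField.adjoin κ (Set.range l)) u)) :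
    finrank κ U ≤ finrank (IntermediateField.adjoin κ (Set.range l)) F * (m + k).choose k +
      (m + k).choose (m + 1) := by
  classical
  have hinf : Infinite κ := IsAlgClosed.instInfinite
  set K := IntermediateField.adjoin κ (Set.range l) with hK
  set δ := finrank K F with hδ
  have hδ0 : 0 < δ := finrank_pos
  have hinj : Function.Injective (aeval l : MvPolynomial (Fin k) κ →ₐ[κ] F) := hl
  let ω : Basis (Fin δ) K F := Module.finBasis K F
  let u : Basis (Fin (finrank κ U)) κ U := Module.finBasis κ U
  let N := finrank κ U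
  -- common denominators
  let z : (Fin N × Fin δ) ⊕ (Fin δ × Fin δ × Fin δ) → F := Sum.elim
    (fun p => (algebraMap K F (ω.repr (u p.1 : F) p.2)))
    (fun p => (algebraMap K F (Algebra.leftMulMatrix ω (ω p.1) p.2.1 p.2.2)))
  obtain ⟨g, hg, hgz⟩ := exists_den (κ := κ) (l := l) Finset.univ z (by
    rintro (p | p) _
    · exact (ω.repr (u p.1 : F) p.2).2
    · exact (Algebra.leftMulMatrix ω (ω p.1) p.2.1 p.2.2).2)
  choose r hr using fun i => hgz i (Finset.mem_univ i)
  let B : Fin N → Fin δ → MvPolynomial (Fin k) κ := fun i j => r (Sum.inl (i, j))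
  let H : Fin δ → Matrix (Fin δ) (Fin δ) (MvPolynomial (Fin k) κ) := fun j a b =>
    r (Sum.inr (j, a, b))
  have hB : ∀ i j, aeval l g * algebraMap K F (ω.repr (u i : F) j) = aeval l (B i j) :=
    fun i j => hr (Sum.inl (i, j))
  have hH : ∀ j a b, aeval l g * algebraMap K F (Algebra.leftMulMatrix ω (ω j) a b) =
      aeval l (H j a b) := fun j a b => hr (Sum.inr (j, a, b))
  have hg0 : g ≠ 0 := by
    rintro rfl
    exact hg (map_zero _)
  obtain ⟨c, hc⟩ : ∃ c : Fin k → κ, eval c g ≠ 0 := by
    by_contra hcon
    push Not at hcon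
    exact hg0 (MvPolynomial.funext fun a => by rw [hcon a, map_zero])
  -- a common eigenvector at the point `c`
  have hHcomm : ∀ i j, H i * H j = H j * H i := by
    intro i j
    have h1 : ∀ i j s t, aeval l ((H i * H j) s t) = aeval l g * aeval l g *
        algebraMap K F (Algebra.leftMulMatrix ω (ω i * ω j) s t) := by
      intro i j s t
      rw [map_mul (Algebra.leftMulMatrix ω), Matrix.mul_apply, Matrix.mul_apply, map_sum, map_sum,
        Finset.mul_sum]
      refine Finset.sum_congr rfl fun a _ => ?_
      rw [map_mul, map_mul, ← hH, ← hH]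
      ring
    ext1 s t
    apply hinj
    rw [h1, h1, mul_comm (ω i)]
  let A : Fin δ → Matrix (Fin δ) (Fin δ) κ := fun j => (eval c).mapMatrix (H j)
  have hAcomm : ∀ i j, A i * A j = A j * A i := by
    intro i j
    simp only [A]
    rw [← map_mul, hHcomm, map_mul]
  obtain ⟨w, χ, hw, hχ⟩ := common_eigen hδ0 A hAcomm Finset.univ
  obtain ⟨i₀, hi₀⟩ : ∃ i, w i ≠ 0 := Function.ne_iff.1 hw
  -- the Taylor map
  let T : (Fin N → κ) →ₗ[κ] ((Fin δ × expo k m) ⊕
      (Finset.univ : Finset (Fin k)).finsuppAntidiag (m + 1) → κ) :=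
    { toFun := fun a => Sum.elim (fun p => coeff p.2.1 (tr c (∑ i, a i • B i p.1)))
        (fun α => coeff α.1 (tr c (∑ j, χ j • ∑ i, a i • B i j)))
      map_add' := by
        intro a b
        funext p
        rcases p with p | p
        · simp only [Sum.elim_inl, Pi.add_apply, add_smul, Finset.sum_add_distrib, map_add,
            coeff_add]
        · simp only [Sum.elim_inr, Pi.add_apply, add_smul, Finset.sum_add_distrib, map_add,
            coeff_add, smul_add]
      map_smul' := by
        intro t a
        funext p
        rcases p with p | p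
        · simp only [Sum.elim_inl, Pi.smul_apply, smul_eq_mul, mul_smul, ← Finset.smul_sum,
            map_smul, coeff_smul, RingHom.id_apply]
        · simp only [Sum.elim_inr, Pi.smul_apply, smul_eq_mul, mul_smul, ← Finset.smul_sum,
            map_smul, coeff_smul, RingHom.id_apply, smul_comm _ t] }
  have hT : Function.Injective T := by
    rw [injective_iff_map_eq_zero]
    intro a ha
    let b : Fin δ → MvPolynomial (Fin k) κ := fun j => ∑ i, a i • B i j
    have hb : ∀ j, Van c (m + 1) (b j) := by
      intro j α hα
      have := congrFun ha (Sum.inl (j, ⟨α, mem_expo.2 (by omega)⟩))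
      exact this
    let β : MvPolynomial (Fin k) κ := ∑ j, χ j • b j
    have hβ : Van c (m + 1 + 1) β := by
      intro α hα
      by_cases h1 : ∑ i, α i < m + 1
      · exact Van.sum _ _ (fun j _ => (hb j).smul (χ j)) α h1
      · have h2 : α ∈ (Finset.univ : Finset (Fin k)).finsuppAntidiag (m + 1) := by
          rw [Finset.mem_finsuppAntidiag]
          refine ⟨?_, Finset.subset_univ _⟩
          have h3 : (∑ i, α i) = m + 1 := by omega
          exact h3
        exact congrFun ha (Sum.inr ⟨α, h2⟩)
    let v : U := ∑ i, a i • u i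
    have hv : (v : F) = ∑ i, a i • (u i : F) := by
      simp only [v, Submodule.coe_sum, Submodule.coe_smul]
    have hrepr : ∀ j, aeval l g * algebraMap K F (ω.repr (v : F) j) = aeval l (b j) := by
      intro j
      have h1 : ω.repr (v : F) j = ∑ i, a i • ω.repr (u i : F) j := by
        rw [hv, map_sum, Finsupp.finset_sum_apply]
        refine Finset.sum_congr rfl fun i _ => ?_
        rw [← algebraMap_smul K (a i) (u i : F), map_smul, Finsupp.smul_apply, algebraMap_smul]
      rw [h1, map_sum, Finset.mul_sum, map_sum]
      refine Finset.sum_congr rfl fun i _ => ?_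
      have h2 : aeval l (a i • B i j) = algebraMap κ F (a i) * aeval l (B i j) := by
        rw [map_smul, Algebra.smul_def]
      have h3 : algebraMap K F (a i • ω.repr (u i : F) j) =
          algebraMap κ F (a i) * algebraMap K F (ω.repr (u i : F) j) := by
        rw [Algebra.smul_def, map_mul, ← IsScalarTower.algebraMap_apply κ K F]
      rw [h2, h3, ← hB]
      ring
    obtain ⟨P, hPd, hP⟩ := hU v v.2
    -- the norm as a determinant
    let M : Matrix (Fin δ) (Fin δ) (MvPolynomial (Fin k) κ) := fun s t => ∑ j, b j * H j s t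
    have hM : ∀ s t, aeval l (M s t) = (aeval l g * aeval l g) *
        algebraMap K F (Algebra.leftMulMatrix ω (v : F) s t) := by
      intro s t
      have h1 : Algebra.leftMulMatrix ω (v : F) =
          ∑ j, ω.repr (v : F) j • Algebra.leftMulMatrix ω (ω j) := by
        conv_lhs => rw [← ω.sum_repr (v : F)]
        rw [map_sum]
        exact Finset.sum_congr rfl fun j _ => map_smul _ _ _
      rw [h1, Matrix.sum_apply, map_sum, map_sum, Finset.mul_sum]
      refine Finset.sum_congr rfl fun j _ => ?_
      rw [Matrix.smul_apply, smul_eq_mul, map_mul, map_mul, ← hrepr, ← hH]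
      ring
    have hdet : aeval l ((g * g) ^ δ * P) = aeval l M.det := by
      have h1 : (aeval l : MvPolynomial (Fin k) κ →ₐ[κ] F) M.det =
          (((aeval l g * aeval l g) • (algebraMap K F).mapMatrix
            (Algebra.leftMulMatrix ω (v : F))) : Matrix (Fin δ) (Fin δ) F).det := by
        have h2 := RingHom.map_det (aeval l : MvPolynomial (Fin k) κ →ₐ[κ] F).toRingHom M
        refine Eq.trans h2 ?_
        congr 1
        ext s t
        exact hM s t
      rw [h1, Matrix.det_smul, Fintype.card_fin, ← RingHom.map_det,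
        ← Algebra.norm_eq_matrix_det, ← hP, map_mul, map_pow, map_mul]
    have hdet' : (g * g) ^ δ * P = M.det := hinj hdet
    have hMV : ∀ s t, Van c (m + 1) (M s t) := fun s t =>
      Van.sum _ _ fun j _ => (hb j).mul_left _
    -- the combination of the rows
    let ρ : Fin δ → MvPolynomial (Fin k) κ := ∑ s, (C (w s) : MvPolynomial (Fin k) κ) • M s
    have hρ : ∀ t, Van c (m + 1 + 1) (ρ t) := by
      intro t
      have h1 : ρ t = w t • β + ∑ j, b j * ∑ s, w s • (H j s t - C (eval c (H j s t))) := by
        have h2 : ρ t = ∑ j, b j * ∑ s, C (w s) * H j s t := by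
          simp only [ρ, Finset.sum_apply, Pi.smul_apply, smul_eq_mul, M, Finset.mul_sum]
          rw [Finset.sum_comm]
          refine Finset.sum_congr rfl fun j _ => Finset.sum_congr rfl fun s _ => ?_
          ring
        have h3 : ∀ j, ∑ s, C (w s) * C (eval c (H j s t)) =
            (C (χ j * w t) : MvPolynomial (Fin k) κ) := by
          intro j
          have h4 := congrFun (hχ j (Finset.mem_univ j)) t
          rw [Pi.smul_apply, smul_eq_mul] at h4
          rw [← h4, Matrix.vecMul, dotProduct, map_sum]
          refine Finset.sum_congr rfl fun s _ => ?_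
          rw [map_mul]
          rfl
        have h5 : ∀ j, b j * ∑ s, w s • (H j s t - C (eval c (H j s t))) =
            b j * ∑ s, C (w s) * H j s t - C (w t) * (C (χ j) * b j) := by
          intro j
          have h6 : ∑ s, w s • (H j s t - C (eval c (H j s t))) =
              ∑ s, C (w s) * H j s t - C (χ j * w t) := by
            rw [← h3 j, ← Finset.sum_sub_distrib]
            refine Finset.sum_congr rfl fun s _ => ?_
            rw [smul_eq_C_mul, mul_sub]
          rw [h6, mul_sub, map_mul]
          ring
        have h6 : w t • β = ∑ j, C (w t) * (C (χ j) * b j) := by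
          simp only [β, smul_eq_C_mul, Finset.mul_sum]
        rw [h2, Finset.sum_congr rfl (fun j _ => h5 j), Finset.sum_sub_distrib, h6]
        exact (add_sub_cancel _ _).symm
      rw [h1]
      refine (hβ.smul _).add ?_
      refine Van.sum _ _ fun j _ => ?_
      refine (hb j).mul ?_
      exact Van.sum (c := c) (r := 1) Finset.univ
        (fun s => w s • (H j s t - C (eval c (H j s t)))) fun s _ => (Van.sub_eval c _).smul _
    have hrow : (M.updateRow i₀ ρ).det = C (w i₀) * M.det := by
      have := Matrix.det_updateRow_sum M i₀ (fun s => C (w s))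
      rw [smul_eq_mul] at this
      exact this
    have hV : Van c (δ * (m + 1) + 1) (C (w i₀) * M.det) := by
      rw [← hrow]
      refine Van.det _ i₀ (fun s t => ?_) (fun t => ?_)
      · by_cases hs : s = i₀
        · rw [hs, Matrix.updateRow_self]
          intro α hα
          exact hρ t α (by omega)
        · rw [Matrix.updateRow_ne hs]
          exact hMV s t
      · rw [Matrix.updateRow_self]
        exact hρ t
    rw [← hdet', ← mul_assoc] at hV
    have hV' : Van c (δ * (m + 1) + 1) P := by
      refine Van.cancel ?_ hV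
      rw [map_mul, map_pow, map_mul, eval_C]
      exact mul_ne_zero hi₀ (pow_ne_zero _ (mul_ne_zero hc hc))
    have hP0 : P = 0 := hV'.eq_zero (Nat.lt_succ_of_le hPd)
    rw [hP0, map_zero] at hP
    have h1 : Algebra.norm K (v : F) = 0 := by
      have := hP.symm
      rwa [map_eq_zero] at this
    have h2 : (v : F) = 0 := Algebra.norm_eq_zero_iff.1 h1
    have h3 : v = 0 := Subtype.ext h2
    have h4 := Fintype.linearIndependent_iff.1 u.linearIndependent a h3
    exact funext h4
  have h1 := LinearMap.finrank_le_finrank_of_injective hT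
  rw [Module.finrank_fintype_fun_eq_card, Module.finrank_fintype_fun_eq_card, Fintype.card_sum,
    Fintype.card_prod, Fintype.card_fin, Fintype.card_fin, Fintype.card_coe, Fintype.card_coe,
    card_expo, Finset.card_finsuppAntidiag_nat_eq_choose, Finset.card_univ, Fintype.card_fin,
    show k + (m + 1) - 1 = m + k by omega] at h1
  exact h1

end Pool.Agent.U10.Dg
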