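import Pool.Agent.U10.Dg.Tay

/-!
# The growth of the powers of the space of linear functions on a variety

Let `F = κ(x_1, …, x_n)` be the function field of an irreducible variety of dimension `k` in affine
`n`-space.  There is a linear projection `l` of the variety onto affine `k`-space such that the space of
the functions of degree at most `m + 1` has dimension at most
`[F : κ(l)] (m + k choose k) + (m + k choose m + 1)`.
-/

set_option autoImplicit false

namespace Pool.Agent.U10.Dg

open MvPolynomial Module
open scoped IntermediateField.algebraAdjoinAdjoin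

variable {κ : Type*} [Field κ] {F : Type*} [Field F] [Algebra κ F]

/-- the space of the elements of growth at most `r` -/
def BdS {k : ℕ} (l : Fin k → F) (r : ℕ) : Submodule κ F where
  carrier := {u | Bd κ l u r}
  add_mem' := fun h1 h2 => Bd.add h1 h2
  zero_mem' := Bd.zero r
  smul_mem' := fun c _ h => Bd.smul h c

theorem pow_le_BdS {k : ℕ} (l : Fin k → F) {V : Submodule κ F} (hV : V ≤ BdS l 1) (m : ℕ) :
    V ^ m ≤ BdS l m := by
  induction m with
  | zero =>
    rw [pow_zero, Submodule.one_le]
    exact Bd.one 0
  | succ m ih =>
    rw [pow_succ, Submodule.mul_le]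
    intro a ha b hb
    exact Bd.mul (ih ha) (hV hb)

theorem finiteDimensional_of_integral {K : IntermediateField κ F} {n : ℕ} (x : Fin n → F)
    (hx : IntermediateField.adjoin κ (Set.range x) = ⊤) (hint : ∀ i, IsIntegral K (x i)) :
    FiniteDimensional K F := by
  have h1 : IntermediateField.adjoin K (Set.range x) = ⊤ := by
    rw [← top_le_iff]
    intro y _
    have h2 : y ∈ IntermediateField.adjoin κ (Set.range x) := by rw [hx]; trivial
    have h3 : IntermediateField.adjoin κ (Set.range x) ≤
        (IntermediateField.adjoin K (Set.range x)).restrictScalars κ := by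
      rw [IntermediateField.adjoin_le_iff]
      exact IntermediateField.subset_adjoin K _
    exact h3 h2
  have h4 : FiniteDimensional K (IntermediateField.adjoin K (Set.range x)) :=
    IntermediateField.finiteDimensional_adjoin (by
      rintro _ ⟨i, rfl⟩
      exact hint i)
  rw [h1] at h4
  exact (IntermediateField.topEquiv (F := K) (E := F)).toLinearEquiv.finiteDimensional

theorem trdeg_eq {k : ℕ} {l : Fin k → F} (hl : AlgebraicIndependent κ l)
    [FiniteDimensional (IntermediateField.adjoin κ (Set.range l)) F] : Algebra.trdeg κ F = k := by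
  have h1 : Algebra.IsAlgebraic (IntermediateField.adjoin κ (Set.range l)) F := inferInstance
  have h2 : Algebra.IsAlgebraic (Algebra.adjoin κ (Set.range l)) F :=
    (IsFractionRing.comap_isAlgebraic_iff (A := Algebra.adjoin κ (Set.range l))
      (K := IntermediateField.adjoin κ (Set.range l))).mpr h1
  have h3 : IsTranscendenceBasis κ l :=
    isTranscendenceBasis_iff_algebraicIndependent_isAlgebraic.2 ⟨hl, h2⟩
  have h4 := h3.lift_cardinalMk_eq_trdeg
  rw [Cardinal.mk_fin, Cardinal.lift_natCast, Cardinal.lift_id'] at h4
  exact h4.symm

/-- **A good projection.** -/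
theorem exists_projection [CharZero F] [IsAlgClosed κ] {n : ℕ} (x : Fin n → F)
    (hx : IntermediateField.adjoin κ (Set.range x) = ⊤) :
    ∃ (k : ℕ) (l : Fin k → F), AlgebraicIndependent κ l ∧
      (∀ i, l i ∈ Submodule.span κ (Set.range x)) ∧ Algebra.trdeg κ F = k ∧
      FiniteDimensional (IntermediateField.adjoin κ (Set.range l)) F ∧
      ∀ m, finrank κ ((Submodule.span κ ({1} ∪ Set.range x)) ^ (m + 1) : Submodule κ F) ≤
        finrank (IntermediateField.adjoin κ (Set.range l)) F * (m + k).choose k +
          (m + k).choose (m + 1) := by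
  have hinf : Infinite κ := IsAlgClosed.instInfinite
  obtain ⟨k, l, hl, hspan, hbd⟩ := exists_normalization (κ := κ) n x
  have hfin : FiniteDimensional (IntermediateField.adjoin κ (Set.range l)) F :=
    finiteDimensional_of_integral x hx fun i => (hbd i).isIntegral
  refine ⟨k, l, hl, hspan, trdeg_eq hl, hfin, fun m => ?_⟩
  set V : Submodule κ F := Submodule.span κ ({1} ∪ Set.range x) with hV
  have hVfd : FiniteDimensional κ V := FiniteDimensional.span_of_finite κ
    ((Set.finite_singleton _).union (Set.finite_range x))
  have hVm : FiniteDimensional κ (V ^ (m + 1) : Submodule κ F) :=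
    Module.Finite.iff_fg.mpr (Submodule.FG.pow (Module.Finite.iff_fg.mp hVfd) (m + 1))
  have hV1 : V ≤ BdS l 1 := by
    rw [hV, Submodule.span_le]
    rintro y (hy | ⟨i, rfl⟩)
    · rw [Set.mem_singleton_iff] at hy
      subst hy
      exact Bd.one 1
    · exact hbd i
  exact finrank_le_of_norm hl (V ^ (m + 1)) m fun u hu =>
    exists_norm hl (pow_le_BdS l hV1 (m + 1) hu)

end Pool.Agent.U10.Dg
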